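import Pool.Agent.H62.Ll2

set_option autoImplicit false

namespace Pool.Agent.Results.MP_b67dab_lc.NotEquiv

open Pool.Agent.H62.Pk

/-- Unique choice on Baire space reduces to no composition f ∘ g with f ≤ List and g ≤ List, so
it does not reduce to List ⋆ List. -/
theorem result : ∀ (X Y Z : Type) (RX : Rep X) (RY : Rep Y) (RZ : Rep Z) (g : X → Set Y)
    (f : Y → Set Z), WLe RY RZ f negC listC ListP → WLe RX RY g negC listC ListP →
    ¬ WLe negRep baireRep UC RX RZ (comp f g) :=
  fun _ _ _ RX RY RZ g f hf hg => not_UC RX RY RZ g f hf hg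

end Pool.Agent.Results.MP_b67dab_lc.NotEquiv
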